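import Pool.Agent.H83.AN.Final

set_option autoImplicit false

/-!
# Horrocks' inequality for equivariant modules over abelian nilradicals

Let `𝔤` be a split semisimple Lie algebra over a field `k` of characteristic `0` (a finite-dimensional
Lie algebra with nondegenerate Killing form and a splitting Cartan subalgebra `H`), and let `z ∈ H` be
an element such that the eigenvalues of `ad z` are in `{-1, 0, 1}`, so that `𝔤 = 𝔲⁻ ⊕ 𝔩 ⊕ 𝔲` is
graded by `-1, 0, 1`. Then `𝔩 ⊕ 𝔲` is a parabolic subalgebra with the Levi subalgebra `𝔩` and the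
abelian nilradical `𝔲`, and all parabolic subalgebras with abelian nilradical arise in this way. Let
`S = Sym(𝔲)[y_1, …, y_q]`.

We prove Horrocks' inequality `rank F_i ≥ binom(dim 𝔲 + q, i)` for every resolution `F` by finite free
modules of a nonzero `S`-module `M`, finite-dimensional over `k`, with a compatible action of `𝔩`
(so that `M` is a module over `𝔩 ⊕ 𝔲`), where the additional variables `y_t`, which act nilpotently and
commute with `𝔩`, are homogeneous for a coarse grading of `M`: no more than four of them have degree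
zero, and for every coordinate no more than two of them have it as the first nonzero coordinate of the
degree. In particular any four additional variables are allowed, without any grading.

For the simple Lie algebras of the types `A`, `C`, `D` the variables are the entries of generic,
symmetric and skew-symmetric matrices with the action of `GL_r × GL_s` and `GL_n`; the types `B`, `D`
also give the standard representation of `SO_m`; `E_6` and `E_7` give the half-spin representation of
`Spin_10` (dimension `16`) and the representation of `E_6` of dimension `27`; the products of copies of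
`sl_2` give multigraded modules. All products of these groups are included, since `𝔤` is semisimple.

Proof. `Λ 𝔲` is generated over `𝔩` by the vectors `e_s`, `s` the set of the weights of `𝔲` which are
positive for a generic dominant functional: the Casimir operator of `𝔩` acts on `Λ^i 𝔲` as a scalar, so
that a highest weight vector in `Λ 𝔲` is a combination of `e_s` with `|ρ + ⟨s⟩| = |ρ|`, and such `s`
are extremal (Kostant). For every such `s` the tensor product of `e_s` with the Koszul homology for the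
variables `y_t` of the extremal weight space of `M` for the same functional embeds in the Koszul
homology of `M`, and the representations generated in this way are independent.
-/

namespace Pool.Agent.Results.MP_e2ce73_al.AbelianNilradicals

open MvPolynomial Module

universe u v w

/-- The Levi subalgebra `𝔩`: the centralizer of `z`. -/
def levi (k : Type u) [Field k] {𝔤 : Type w} [LieRing 𝔤] [LieAlgebra k 𝔤] (z : 𝔤) :
    LieSubalgebra k 𝔤 where
  carrier := {x | ⁅z, x⁆ = 0}
  add_mem' := by
    intro a b ha hb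
    change ⁅z, a⁆ = 0 at ha
    change ⁅z, b⁆ = 0 at hb
    change ⁅z, a + b⁆ = 0
    rw [lie_add, ha, hb, add_zero]
  zero_mem' := lie_zero z
  smul_mem' := by
    intro c a ha
    change ⁅z, a⁆ = 0 at ha
    change ⁅z, c • a⁆ = 0
    rw [lie_smul, ha, smul_zero]
  lie_mem' := by
    intro a b ha hb
    change ⁅z, a⁆ = 0 at ha
    change ⁅z, b⁆ = 0 at hb
    change ⁅z, ⁅a, b⁆⁆ = 0
    rw [leibniz_lie, ha, hb, zero_lie, lie_zero, add_zero]

/-- The nilradical `𝔲`: the elements `x` with `[z, x] = x`. -/
def nilradical (k : Type u) [Field k] {𝔤 : Type w} [LieRing 𝔤] [LieAlgebra k 𝔤] (z : 𝔤) :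
    Submodule k 𝔤 where
  carrier := {x | ⁅z, x⁆ = x}
  add_mem' := by
    intro a b ha hb
    change ⁅z, a⁆ = a at ha
    change ⁅z, b⁆ = b at hb
    change ⁅z, a + b⁆ = a + b
    rw [lie_add, ha, hb]
  zero_mem' := lie_zero z
  smul_mem' := by
    intro c a ha
    change ⁅z, a⁆ = a at ha
    change ⁅z, c • a⁆ = c • a
    rw [lie_smul, ha]

/-- The element of `S = Sym(𝔲)[y_1, …, y_q]` given by an element of `𝔲`: the variables `inl i`
correspond to a basis `b` of `𝔲`, the variables `inr t` are the `y_t`. -/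
noncomputable def lin {k : Type u} [Field k] {𝔤 : Type w} [LieRing 𝔤] [LieAlgebra k 𝔤] {z : 𝔤}
    {n : ℕ} (b : Basis (Fin n) k (nilradical k z)) (q : ℕ) :
    nilradical k z →ₗ[k] MvPolynomial (Fin n ⊕ Fin q) k :=
  b.constr k fun i => X (Sum.inl i)

/-- A compatible action of `𝔩` on the `S`-module `M`, and a grading `ℳ` of `M` by `ℤ^r`, stable under
`𝔩`, such that `y_t` has degree `deg t`. -/
structure Equivariant {k : Type u} [Field k] [CharZero k] {𝔤 : Type w} [LieRing 𝔤] [LieAlgebra k 𝔤]
    [FiniteDimensional k 𝔤] [LieAlgebra.IsKilling k 𝔤] (H : LieSubalgebra k 𝔤)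
    [H.IsCartanSubalgebra] [LieModule.IsTriangularizable k H 𝔤] {z : 𝔤} {n q r : ℕ}
    (b : Basis (Fin n) k (nilradical k z)) (deg : Fin q → Fin r → ℤ)
    {M : Type v} [AddCommGroup M] [Module k M] [Module (MvPolynomial (Fin n ⊕ Fin q) k) M]
    [LieRingModule (levi k z) M] (ℳ : (Fin r → ℤ) → Submodule k M) : Prop where
  /-- `A (x m) = x (A m) + [A, x] m` for `A` in `𝔩` and `x` in `𝔲` -/
  var : ∀ (A : levi k z) (x x' : nilradical k z), (x' : 𝔤) = ⁅(A : 𝔤), (x : 𝔤)⁆ → ∀ m : M,
    ⁅A, lin b q x • m⁆ = lin b q x • ⁅A, m⁆ + lin b q x' • m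
  /-- `𝔩` commutes with the variables `y_t` -/
  inv : ∀ (A : levi k z) (t : Fin q) (m : M),
    ⁅A, (X (Sum.inr t) : MvPolynomial (Fin n ⊕ Fin q) k) • m⁆ =
      (X (Sum.inr t) : MvPolynomial (Fin n ⊕ Fin q) k) • ⁅A, m⁆
  /-- `M` is spanned by vectors on which all coroots act by rational numbers -/
  weights : Submodule.span k {m : M | ∀ (α : H.root) (A : levi k z),
    (A : 𝔤) = (LieAlgebra.IsKilling.coroot (α : LieModule.Weight k H 𝔤) : H) →
      ∃ c : ℚ, ⁅A, m⁆ = (c : k) • m} = ⊤
  /-- `M` is the direct sum of the `ℳ a` -/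
  internal : DirectSum.IsInternal ℳ
  /-- the `ℳ a` are stable under `𝔩` -/
  stable : ∀ (A : levi k z) (a : Fin r → ℤ), ∀ m ∈ ℳ a, ⁅A, m⁆ ∈ ℳ a
  /-- `y_t` has degree `deg t` -/
  degree : ∀ (t : Fin q) (a : Fin r → ℤ), ∀ m ∈ ℳ a,
    (X (Sum.inr t) : MvPolynomial (Fin n ⊕ Fin q) k) • m ∈ ℳ (a + deg t)
  /-- `y_t` acts nilpotently -/
  nilpotent : ∀ t : Fin q, ∃ N : ℕ, ∀ m : M,
    (X (Sum.inr t) : MvPolynomial (Fin n ⊕ Fin q) k) ^ N • m = 0

/-- **Theorem.** Let `𝔤` be a split semisimple Lie algebra over a field of characteristic `0`, let `z`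
be an element of a splitting Cartan subalgebra with `(ad z) ^ 3 = ad z`, let `𝔩` be the centralizer of
`z` and `𝔲` the eigenspace of `ad z` for the eigenvalue `1`, of dimension `n`. Let `M` be a nonzero
equivariant module of finite length over `Sym(𝔲)[y_1, …, y_q]`, where no more than four `y_t` have
degree `0` and for every coordinate no more than two `y_t` have it as first nonzero coordinate of their
degree. Then every resolution of `M` by finite free modules `F_i` has `rank F_i ≥ binom(n + q, i)`. -/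
theorem result (k : Type u) [Field k] [CharZero k] (𝔤 : Type w) [LieRing 𝔤] [LieAlgebra k 𝔤]
    [FiniteDimensional k 𝔤] [LieAlgebra.IsKilling k 𝔤] (H : LieSubalgebra k 𝔤)
    [H.IsCartanSubalgebra] [LieModule.IsTriangularizable k H 𝔤] (z : 𝔤) (hzH : z ∈ H)
    (hz : ∀ x : 𝔤, ⁅z, ⁅z, ⁅z, x⁆⁆⁆ = ⁅z, x⁆)
    (n q r : ℕ) (b : Basis (Fin n) k (nilradical k z)) (deg : Fin q → Fin r → ℤ)
    (h4 : {t : Fin q | deg t = 0}.ncard ≤ 4)
    (h2 : ∀ s : Fin r, {t : Fin q | deg t s ≠ 0 ∧ ∀ s' < s, deg t s' = 0}.ncard ≤ 2)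
    (M : Type v) [AddCommGroup M] [Module k M] [FiniteDimensional k M] [Nontrivial M]
    [Module (MvPolynomial (Fin n ⊕ Fin q) k) M] [IsScalarTower k (MvPolynomial (Fin n ⊕ Fin q) k) M]
    [LieRingModule (levi k z) M] [LieModule k (levi k z) M]
    (ℳ : (Fin r → ℤ) → Submodule k M) (hM : Equivariant H b deg ℳ)
    (F : ℕ → Type v) [∀ i, AddCommGroup (F i)] [∀ i, Module (MvPolynomial (Fin n ⊕ Fin q) k) (F i)]
    [∀ i, Module.Free (MvPolynomial (Fin n ⊕ Fin q) k) (F i)]
    [∀ i, Module.Finite (MvPolynomial (Fin n ⊕ Fin q) k) (F i)]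
    (d : ∀ i, F (i + 1) →ₗ[MvPolynomial (Fin n ⊕ Fin q) k] F i)
    (ε : F 0 →ₗ[MvPolynomial (Fin n ⊕ Fin q) k] M) (hε : Function.Surjective ε)
    (hd0 : LinearMap.range (d 0) = LinearMap.ker ε)
    (hd : ∀ i, LinearMap.range (d (i + 1)) = LinearMap.ker (d i)) (i : ℕ) :
    (n + q).choose i ≤ Module.finrank (MvPolynomial (Fin n ⊕ Fin q) k) (F i) := by
  let ρ : Pool.Agent.H83.AN.levi k z →ₗ[k] Module.End k M :=
    { toFun := fun A =>
        { toFun := fun m => ⁅(⟨A.1, A.2⟩ : levi k z), m⁆
          map_add' := fun m m' => lie_add _ m m'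
          map_smul' := fun c m => lie_smul c _ m }
      map_add' := fun A B => LinearMap.ext fun m =>
        add_lie (⟨A.1, A.2⟩ : levi k z) (⟨B.1, B.2⟩ : levi k z) m
      map_smul' := fun c A => LinearMap.ext fun m =>
        smul_lie c (⟨A.1, A.2⟩ : levi k z) m }
  refine Pool.Agent.H83.AN.main (⟨z, hzH⟩ : H) hz n q r b deg h4 h2 M ρ ℳ ?_ ?_ ?_ ?_
    hM.internal ?_ hM.degree hM.nilpotent F d ε hε hd0 hd i
  · intro A B
    exact LinearMap.ext fun m => lie_lie (⟨A.1, A.2⟩ : levi k z) (⟨B.1, B.2⟩ : levi k z) m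
  · intro A x x' hx m
    exact hM.var ⟨A.1, A.2⟩ x x' hx m
  · intro A t m
    exact hM.inv ⟨A.1, A.2⟩ t m
  · rw [eq_top_iff, ← hM.weights]
    refine Submodule.span_mono ?_
    intro m hm α A hA
    exact hm α ⟨A.1, A.2⟩ hA
  · intro A a m hm
    exact hM.stable ⟨A.1, A.2⟩ a m hm

end Pool.Agent.Results.MP_e2ce73_al.AbelianNilradicals
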