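import Pool.Agent.H83.BF.Quart

set_option autoImplicit false

/-!
# Betti numbers of `SL_2`-equivariant modules over rings of binary forms

Let `k` be a field of characteristic `0` and let `S = k[X_0, …, X_{m-1}]` be the symmetric algebra
of the irreducible representation of `SL_2` of dimension `m`; `X_j` stands for the binary form
`x ^ (m-1-j) y ^ j`. Let `M ≠ 0` be a graded `S`-module of finite length with a compatible action of
`SL_2`, and let `β_i` be the rank of the `i`-th module of a resolution of `M` by finite free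
modules.

* `β_i ≥ i (m - i) + 1` for all `i ≤ m`.
* If `M` lives in degrees between `a` and `a + t` then `β_i ≥ i (m - i) + 1 + n - c_i t` for every
  weight `n` of `M` (for instance `n + 1 =` the largest dimension of an irreducible constituent of
  `M`), where `c_i = max (|2 i - m| - 1) 0`. In the middle (`|2 i - m| ≤ 1`) there is no loss. So
  Horrocks' inequality `β_i ≥ binom(m, i)` holds as soon as `M` has a constituent of dimension
  larger than `binom(m, i) - i (m - i) + c_i t`.
* For `m = 5` (binary quartics; five variables, the first open case of Horrocks' conjecture):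
  `β_i ≥ binom(5, i)` for all `i`, without any further assumption. If all weights of `M` are at most
  two then all products of two variables kill `M`, and the ranks in the Koszul complex are
  estimated; otherwise `β_2, β_3 ≥ 7 + 3`.
-/

namespace Pool.Agent.Results.MP_e2ce73_al.BinaryForms

open MvPolynomial Pool.Agent.K7.H9.HL Pool.Agent.W650 Pool.Agent.H83.BF
open Pool.Agent.K7.H9.HE (cS cS_apply finrank_H_le)

universe u v

/-- A graded module `M = ⨁ ℳ a` over `k[X_0, …, X_{m-1}]` with a compatible action of `SL_2`, given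
by the operators `E`, `F`, `H` of the standard basis of the Lie algebra; `X_j` stands for
`x ^ (m-1-j) y ^ j`, on which `E = x ∂/∂y`, `F = y ∂/∂x`, `H = x ∂/∂x - y ∂/∂y`. -/
structure Equivariant {k : Type u} [Field k] {m : ℕ} {M : Type v} [AddCommGroup M] [Module k M]
    [Module (MvPolynomial (Fin m) k) M] (ℳ : ℤ → Submodule k M) (E F H : Module.End k M) :
    Prop where
  /-- the grading -/
  graded : DirectSum.IsInternal ℳ
  /-- the variables have degree one -/
  var_mem : ∀ (j : Fin m) (a : ℤ), ∀ y ∈ ℳ a, (X j : MvPolynomial (Fin m) k) • y ∈ ℳ (a + 1)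
  /-- the operators preserve the grading -/
  mem : ∀ (a : ℤ), ∀ y ∈ ℳ a, E y ∈ ℳ a ∧ F y ∈ ℳ a ∧ H y ∈ ℳ a
  /-- `[E, F] = H` -/
  ef : E * F - F * E = H
  /-- `[H, E] = 2 E` -/
  he : H * E - E * H = (2 : k) • E
  /-- `[H, F] = -2 F` -/
  hf : H * F - F * H = -((2 : k) • F)
  /-- the weights are integers -/
  weights : ⨆ n : ℤ, Module.End.eigenspace H (n : k) = ⊤
  /-- compatibility for `E` -/
  e_var : ∀ (j : Fin m) (y : M), E ((X j : MvPolynomial (Fin m) k) • y) =
    (X j : MvPolynomial (Fin m) k) • E y + ∑ i : Fin m,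
      (if (i : ℕ) + 1 = (j : ℕ) then ((j : ℕ) : k) else 0) • ((X i : MvPolynomial (Fin m) k) • y)
  /-- compatibility for `F` -/
  f_var : ∀ (j : Fin m) (y : M), F ((X j : MvPolynomial (Fin m) k) • y) =
    (X j : MvPolynomial (Fin m) k) • F y + ∑ i : Fin m,
      (if (j : ℕ) + 1 = (i : ℕ) then ((m : k) - 1 - ((j : ℕ) : k)) else 0) •
        ((X i : MvPolynomial (Fin m) k) • y)
  /-- compatibility for `H` -/
  h_var : ∀ (j : Fin m) (y : M), H ((X j : MvPolynomial (Fin m) k) • y) =
    (X j : MvPolynomial (Fin m) k) • H y +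
      ((m : k) - 1 - 2 * ((j : ℕ) : k)) • ((X j : MvPolynomial (Fin m) k) • y)

section degree

variable {k : Type u} [Field k] {M : Type v} [AddCommGroup M] [Module k M]
  {ℳ : ℤ → Submodule k M}

/-- the degree operator -/
noncomputable def dg (h : DirectSum.IsInternal ℳ) : Module.End k M :=
  (DirectSum.toModule k ℤ M fun a => (a : k) • (ℳ a).subtype) ∘ₗ
    (LinearEquiv.ofBijective (DirectSum.coeLinearMap ℳ) h).symm.toLinearMap

theorem dg_mem (h : DirectSum.IsInternal ℳ) {a : ℤ} {y : M} (hy : y ∈ ℳ a) :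
    dg h y = (a : k) • y := by
  have h1 : (LinearEquiv.ofBijective (DirectSum.coeLinearMap ℳ) h).symm y =
      DirectSum.lof k ℤ (fun a => ℳ a) a ⟨y, hy⟩ := by
    rw [LinearEquiv.symm_apply_eq]
    change y = DirectSum.coeLinearMap ℳ (DirectSum.lof k ℤ (fun a => ℳ a) a ⟨y, hy⟩)
    rw [DirectSum.coeLinearMap_lof]
  rw [dg, LinearMap.comp_apply, LinearEquiv.coe_coe, h1, DirectSum.toModule_lof]
  rfl

theorem ext_graded (h : DirectSum.IsInternal ℳ) {f g : Module.End k M}
    (hfg : ∀ a, ∀ y ∈ ℳ a, f y = g y) : f = g := by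
  refine LinearMap.ext fun y => ?_
  have h1 : (⊤ : Submodule k M) ≤ LinearMap.eqLocus f g := by
    rw [← h.submodule_iSup_eq_top]
    exact iSup_le fun a y hy => hfg a y hy
  exact h1 Submodule.mem_top

theorem dg_comm (h : DirectSum.IsInternal ℳ) {f : Module.End k M}
    (hf : ∀ a, ∀ y ∈ ℳ a, f y ∈ ℳ a) : dg h * f = f * dg h := by
  refine ext_graded h fun a y hy => ?_
  rw [Module.End.mul_apply, Module.End.mul_apply, dg_mem h hy, dg_mem h (hf a y hy), map_smul]

theorem dg_top (h : DirectSum.IsInternal ℳ) :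
    ⨆ n : ℤ, Module.End.eigenspace (dg h) (n : k) = ⊤ := by
  rw [eq_top_iff, ← h.submodule_iSup_eq_top]
  refine iSup_le fun a => le_iSup_of_le a fun y hy => ?_
  rw [Module.End.mem_eigenspace_iff]
  exact dg_mem h hy

theorem dg_bot [CharZero k] (h : DirectSum.IsInternal ℳ) {n : ℤ} (hn : ℳ n = ⊥) :
    Module.End.eigenspace (dg h) (n : k) = ⊥ := by
  have h1 := Pool.Agent.H83.GP.eig_indep (k := k) (dg h) n
  have h2 : (⊤ : Submodule k M) ≤ ⨆ (j : ℤ) (_ : j ≠ n), Module.End.eigenspace (dg h) (j : k) := by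
    rw [← h.submodule_iSup_eq_top]
    refine iSup_le fun a => ?_
    by_cases ha : a = n
    · rw [ha, hn]
      exact bot_le
    · refine le_iSup₂_of_le (f := fun (j : ℤ) (_ : j ≠ n) =>
        Module.End.eigenspace (dg h) (j : k)) a ha fun y hy => ?_
      rw [Module.End.mem_eigenspace_iff]
      exact dg_mem h hy
  rw [top_le_iff.1 h2] at h1
  exact disjoint_top.1 h1

end degree

section proof

variable {k : Type u} [Field k] [CharZero k] {m : ℕ} {M : Type v} [AddCommGroup M] [Module k M]
  [FiniteDimensional k M] [Module (MvPolynomial (Fin m) k) M] {ℳ : ℤ → Submodule k M}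
  {E F H : Module.End k M}

/-- the representation -/
noncomputable def rep (h : Equivariant (m := m) ℳ E F H) : Rep (tri k) M :=
  mkRep E F H (dg h.graded) h.ef h.he h.hf
    (dg_comm h.graded fun a y hy => (h.mem a y hy).2.2)
    (dg_comm h.graded fun a y hy => (h.mem a y hy).1)
    (dg_comm h.graded fun a y hy => (h.mem a y hy).2.1) h.weights (dg_top h.graded)

theorem rep_ρ (h : Equivariant (m := m) ℳ E F H) (Y : k × k × k × k) (y : M) :
    (rep h).ρ Y y = Y.1 • H y + Y.2.1 • dg h.graded y + Y.2.2.1 • E y + Y.2.2.2 • F y := rfl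

variable [IsScalarTower k (MvPolynomial (Fin m) k) M]

theorem dg_var (h : Equivariant (m := m) ℳ E F H) (j : Fin m) (y : M) :
    dg h.graded ((X j : MvPolynomial (Fin m) k) • y) =
      (X j : MvPolynomial (Fin m) k) • dg h.graded y + (X j : MvPolynomial (Fin m) k) • y := by
  have h1 : (dg h.graded) * (Algebra.lsmul k k M (X j : MvPolynomial (Fin m) k)) =
      (Algebra.lsmul k k M (X j : MvPolynomial (Fin m) k)) * dg h.graded +
      Algebra.lsmul k k M (X j : MvPolynomial (Fin m) k) := by
    refine ext_graded h.graded fun a y hy => ?_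
    simp only [Module.End.mul_apply, LinearMap.add_apply, Algebra.lsmul_coe]
    rw [dg_mem h.graded hy, dg_mem h.graded (h.var_mem j a y hy), Int.cast_add, Int.cast_one,
      add_smul, one_smul, smul_comm]
  exact congrArg (fun g : Module.End k M => g y) h1

theorem eqv (h : Equivariant (m := m) ℳ E F H) :
    (vr k m).Eqv (rep h) (opv k (cS k (Equiv.refl (Fin m))) M) := by
  intro Y j y
  have ho : ∀ (i : Fin m) (y : M), opv k (cS k (Equiv.refl (Fin m))) M i y =
      (MvPolynomial.X i : MvPolynomial (Fin m) k) • y := by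
    intro i y
    rw [opv_apply, cS_apply]
    rfl
  simp only [ho]
  rw [rep_ρ, rep_ρ, h.h_var, h.e_var, h.f_var, dg_var h]
  have e1 : ∀ i : Fin m, ((vr k m).A Y i j) = Y.1 * (mh k m i j) +
      Y.2.1 * ((1 : Matrix (Fin m) (Fin m) k) i j) + Y.2.2.1 * me k m i j +
      Y.2.2.2 * mf k m i j := by
    intro i
    simp [vr]
  simp only [e1, add_smul, Finset.sum_add_distrib, mul_smul, ← Finset.smul_sum]
  have e2 : ∑ i : Fin m, mh k m i j • ((X i : MvPolynomial (Fin m) k) • y) =
      ((m : k) - 1 - 2 * ((j : ℕ) : k)) • ((X j : MvPolynomial (Fin m) k) • y) := by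
    rw [Finset.sum_eq_single j]
    · rw [mh, Matrix.diagonal_apply_eq]
    · intro i _ hi
      rw [mh, Matrix.diagonal_apply_ne _ hi, zero_smul]
    · simp
  have e3 : ∑ i : Fin m, (1 : Matrix (Fin m) (Fin m) k) i j •
      ((X i : MvPolynomial (Fin m) k) • y) = (X j : MvPolynomial (Fin m) k) • y := by
    rw [Finset.sum_eq_single j]
    · rw [Matrix.one_apply_eq, one_smul]
    · intro i _ hi
      rw [Matrix.one_apply_ne hi, zero_smul]
    · simp
  rw [e2, e3]
  simp only [me, mf, Matrix.of_apply, smul_add]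
  simp only [smul_comm _ (X j : MvPolynomial (Fin m) k)]
  abel

end proof

/-- **Theorem.** Lower bounds for the Betti numbers of `SL_2`-equivariant graded modules of finite
length over the ring of binary forms in `m` coefficients; Horrocks' inequality for `m = 5`. -/
theorem result (k : Type u) [Field k] [CharZero k] (m : ℕ)
    (M : Type v) [AddCommGroup M] [Module k M] [FiniteDimensional k M] [Nontrivial M]
    [Module (MvPolynomial (Fin m) k) M] [IsScalarTower k (MvPolynomial (Fin m) k) M]
    (ℳ : ℤ → Submodule k M) (E F H : Module.End k M) (h : Equivariant (m := m) ℳ E F H)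
    (P : ℕ → Type v) [∀ i, AddCommGroup (P i)] [∀ i, Module (MvPolynomial (Fin m) k) (P i)]
    [∀ i, Module.Free (MvPolynomial (Fin m) k) (P i)]
    [∀ i, Module.Finite (MvPolynomial (Fin m) k) (P i)]
    (d : ∀ i, P (i + 1) →ₗ[MvPolynomial (Fin m) k] P i)
    (ε : P 0 →ₗ[MvPolynomial (Fin m) k] M) (hε : Function.Surjective ε)
    (hd0 : LinearMap.range (d 0) = LinearMap.ker ε)
    (hd : ∀ i, LinearMap.range (d (i + 1)) = LinearMap.ker (d i)) :
    (∀ i ≤ m, i * (m - i) + 1 ≤ Module.finrank (MvPolynomial (Fin m) k) (P i)) ∧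
    (∀ (a : ℤ) (t : ℕ), (∀ b, ℳ b ≠ ⊥ → a ≤ b ∧ b ≤ a + t) →
      ∀ n : ℤ, Module.End.eigenspace H (n : k) ≠ ⊥ → ∀ i ≤ m,
        (i : ℤ) * ((m : ℤ) - i) + 1 + n ≤
          (Module.finrank (MvPolynomial (Fin m) k) (P i) : ℤ) +
            max (|2 * (i : ℤ) - m| - 1) 0 * t) ∧
    (m = 5 → ∀ i, Nat.choose 5 i ≤ Module.finrank (MvPolynomial (Fin m) k) (P i)) := by
  have hle := fun i => finrank_H_le (Equiv.refl (Fin m)) P d ε hε hd0 hd i
  refine ⟨fun i hi => (bound_all (eqv h) i hi).trans (hle i), ?_, ?_⟩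
  · intro a t hat n hn i hi
    obtain ⟨y, hy, hy0⟩ := Submodule.exists_mem_ne_zero_of_ne_bot hn
    rw [Module.End.mem_eigenspace_iff] at hy
    have h1 : (rep h).ρ (1, 0, 0, 0) y = (n : k) • y := by
      rw [rep_ρ, hy]
      simp
    obtain ⟨ν, hν, hν0⟩ := H_wt h1 hy0
    have h2 := bound_weight (eqv h) i hi a t (fun κ hκ => by
      obtain ⟨z, hz, hz0⟩ := Submodule.exists_mem_ne_zero_of_ne_bot hκ
      refine hat (κ 1) fun hbot => hz0 ?_
      have h3 : (rep h).ρ (0, 1, 0, 0) z = ((κ 1 : ℤ) : k) • z := hz 1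
      rw [rep_ρ] at h3
      simp only [zero_smul, one_smul, zero_add, add_zero] at h3
      have h4 := Module.End.mem_eigenspace_iff.2 h3
      rw [dg_bot h.graded hbot, Submodule.mem_bot] at h4
      exact h4) ν hν
    rw [hν0] at h2
    have h3 : (Module.finrank k ((koszul (opv k (cS k (Equiv.refl (Fin m))) M) m).H (i : ℤ)) : ℤ) ≤
        (Module.finrank (MvPolynomial (Fin m) k) (P i) : ℤ) := by
      exact_mod_cast hle i
    linarith
  · intro hm i
    subst hm
    exact (horrocks5 (eqv h) (fun a b w => by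
      rw [opv_apply, opv_apply, opv_apply, opv_apply, smul_comm]) i).trans (hle i)

end Pool.Agent.Results.MP_e2ce73_al.BinaryForms
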