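import Pool.Agent.H83.GP.Inst

set_option autoImplicit false

/-!
# A gap theorem for the Betti numbers of equivariant modules over matrix spaces

Let `k` be a field of characteristic `0` and `S` the polynomial ring in the `N` entries of one of
the following generic matrices: an `r × c` matrix (with the group `GL_r × GL_c`), a symmetric
`n × n` matrix, a skew-symmetric `n × n` matrix (with the group `GL_n`). Let `M` be an equivariant
`S`-module of finite length which has no direct summand of dimension one (that is, the residue
field `k` is not a direct summand of `M`). For every resolution of `M` by finite free modules `F_i`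
and every `0 < i < N` we prove

* `rank F_i ≥ (1 + 1 / (L + 1)) * binom(N, i)`, where `L = max(r, c)` for `r × c` matrices, `r, c ≥ 2`,
  and `L = 1` if `r = 1` or `c = 1`,
* `rank F_i ≥ (1 + 1 / (n + 1)) * binom(N, i)` for symmetric `n × n` matrices,
* `rank F_i ≥ (1 + 1 / (n - 1)) * binom(N, i)` for skew-symmetric `n × n` matrices.

The group acts through its Lie algebra: operators `E a b` for the matrix units, with the commutation
relations of matrix units, acting compatibly with the derivations of `S`, and such that `M` is the
sum of its weight spaces for integer weights.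
-/

namespace Pool.Agent.Results.MP_e2ce73_al.GapTheorem

open MvPolynomial Pool.Agent.K7.H9.HE Pool.Agent.W650

universe u v

/-- The relations of the matrix units. -/
def Units {k : Type u} [Field k] {M : Type v} [AddCommGroup M] [Module k M] {r : ℕ}
    (E : Fin r → Fin r → Module.End k M) : Prop :=
  ∀ a b a' b', E a b * E a' b' - E a' b' * E a b =
    (if b = a' then E a b' else 0) - (if b' = a then E a' b else 0)

/-- An equivariant module over the polynomial ring in the entries `x_{ac} = X (a, c)` of the generic
`r × c` matrix: actions `E` and `E'` of the Lie algebras of the `r × r` and `c × c` matrices, which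
commute, are compatible with the variables, and have integer weights. -/
structure Equivariant {k : Type u} [Field k] {r c : ℕ} {M : Type v} [AddCommGroup M] [Module k M]
    [Module (MvPolynomial (Fin r × Fin c) k) M]
    (E : Fin r → Fin r → Module.End k M) (E' : Fin c → Fin c → Module.End k M) : Prop where
  rows : Units E
  cols : Units E'
  comm : ∀ a b a' b', E a b * E' a' b' = E' a' b' * E a b
  /-- `[E a b, x_{de}] = δ_{bd} x_{ae}` -/
  row_var : ∀ a b d e, ∀ m : M, E a b ((X (d, e) : MvPolynomial (Fin r × Fin c) k) • m) =
    (X (d, e) : MvPolynomial (Fin r × Fin c) k) • E a b m +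
      (if b = d then (X (a, e) : MvPolynomial (Fin r × Fin c) k) • m else 0)
  /-- `[E' a b, x_{de}] = δ_{be} x_{da}` -/
  col_var : ∀ a b d e, ∀ m : M, E' a b ((X (d, e) : MvPolynomial (Fin r × Fin c) k) • m) =
    (X (d, e) : MvPolynomial (Fin r × Fin c) k) • E' a b m +
      (if b = e then (X (d, a) : MvPolynomial (Fin r × Fin c) k) • m else 0)
  /-- `M` is spanned by vectors `m` with `E a a m = ν a • m` and `E' b b m = ν' b • m` for integers
  `ν a` and `ν' b` -/
  weights : Submodule.span k {m : M | ∃ (ν : Fin r → ℤ) (ν' : Fin c → ℤ),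
    (∀ a, E a a m = (ν a : k) • m) ∧ ∀ b, E' b b m = (ν' b : k) • m} = ⊤

/-- An equivariant module over the polynomial ring in the variables of the index type `σ`, where
`x a b` are the entries of the generic symmetric or skew-symmetric `n × n` matrix: an action `E` of
the Lie algebra of the `n × n` matrices, compatible with its action on the variables, with integer
weights. -/
structure EquivariantPair {k : Type u} [Field k] {n : ℕ} {σ : Type}
    (x : Fin n → Fin n → MvPolynomial σ k)
    {M : Type v} [AddCommGroup M] [Module k M] [Module (MvPolynomial σ k) M]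
    (E : Fin n → Fin n → Module.End k M) : Prop where
  units : Units E
  /-- `[E u v, x_{ab}] = δ_{va} x_{ub} + δ_{vb} x_{au}` -/
  var : ∀ u v a b, ∀ m : M, E u v (x a b • m) = x a b • E u v m +
    (if v = a then x u b • m else 0) + (if v = b then x a u • m else 0)
  /-- `M` is spanned by vectors `m` with `E a a m = ν a • m` for integers `ν a` -/
  weights : Submodule.span k {m : M | ∃ ν : Fin n → ℤ, ∀ a, E a a m = (ν a : k) • m} = ⊤

/-- The positions on and above the diagonal of `n × n` matrices. -/
abbrev SymEntry (n : ℕ) : Type := {x : Fin n × Fin n // x.1 ≤ x.2}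

/-- The entries `x_{ab} = x_{ba}` of the generic symmetric matrix. -/
noncomputable def symX (k : Type u) [Field k] (n : ℕ) (a b : Fin n) : MvPolynomial (SymEntry n) k :=
  if h : a ≤ b then X ⟨(a, b), h⟩ else X ⟨(b, a), (not_le.1 h).le⟩

/-- The positions above the diagonal of `n × n` matrices. -/
abbrev SkewEntry (n : ℕ) : Type := {x : Fin n × Fin n // x.1 < x.2}

/-- The entries `x_{ab} = - x_{ba}` of the generic skew-symmetric matrix. -/
noncomputable def skewX (k : Type u) [Field k] (n : ℕ) (a b : Fin n) :
    MvPolynomial (SkewEntry n) k :=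
  if h : a < b then X ⟨(a, b), h⟩ else if h : b < a then - X ⟨(b, a), h⟩ else 0

/-- `M` has no direct summand of dimension one over `k`. -/
def NoLine (k : Type u) [Field k] (σ : Type) (M : Type v) [AddCommGroup M] [Module k M]
    [Module (MvPolynomial σ k) M] [IsScalarTower k (MvPolynomial σ k) M] : Prop :=
  ∀ A B : Submodule (MvPolynomial σ k) M, IsCompl A B → Module.finrank k A ≠ 1

/-- The Betti numbers of `M`: for every resolution of `M` by finite free modules `F_i` and every
`0 < i < N` we have `A * binom(N, i) ≤ B * rank F_i`. -/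
def Bound (k : Type u) [Field k] (σ : Type) (M : Type v) [AddCommGroup M]
    [Module (MvPolynomial σ k) M] (N A B : ℕ) : Prop :=
  ∀ (F : ℕ → Type v) [∀ i, AddCommGroup (F i)] [∀ i, Module (MvPolynomial σ k) (F i)]
    [∀ i, Module.Free (MvPolynomial σ k) (F i)] [∀ i, Module.Finite (MvPolynomial σ k) (F i)]
    (d : ∀ i, F (i + 1) →ₗ[MvPolynomial σ k] F i) (ε : F 0 →ₗ[MvPolynomial σ k] M),
    Function.Surjective ε → LinearMap.range (d 0) = LinearMap.ker ε →
    (∀ i, LinearMap.range (d (i + 1)) = LinearMap.ker (d i)) →
    ∀ i, 0 < i → i < N → A * N.choose i ≤ B * Module.finrank (MvPolynomial σ k) (F i)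

/-- The gap theorem for `r × c` matrices. -/
def MatrixGap : Prop :=
  ∀ (k : Type u) [Field k] [CharZero k] (r c L : ℕ), (2 ≤ r → c ≤ L) → (2 ≤ c → r ≤ L) →
    ∀ (M : Type v) [AddCommGroup M] [Module k M] [FiniteDimensional k M] [Nontrivial M]
      [Module (MvPolynomial (Fin r × Fin c) k) M]
      [IsScalarTower k (MvPolynomial (Fin r × Fin c) k) M]
      (E : Fin r → Fin r → Module.End k M) (E' : Fin c → Fin c → Module.End k M),
      Equivariant E E' → NoLine k (Fin r × Fin c) M →
      Bound k (Fin r × Fin c) M (r * c) (L + 2) (L + 1)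

/-- The gap theorem for symmetric `n × n` matrices. -/
def SymmetricGap : Prop :=
  ∀ (k : Type u) [Field k] [CharZero k] (n : ℕ) (M : Type v) [AddCommGroup M] [Module k M]
      [FiniteDimensional k M] [Nontrivial M] [Module (MvPolynomial (SymEntry n) k) M]
      [IsScalarTower k (MvPolynomial (SymEntry n) k) M]
      (E : Fin n → Fin n → Module.End k M),
      EquivariantPair (symX k n) E → NoLine k (SymEntry n) M →
      Bound k (SymEntry n) M ((n + 1).choose 2) (n + 2) (n + 1)

/-- The gap theorem for skew-symmetric `n × n` matrices. -/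
def SkewGap : Prop :=
  ∀ (k : Type u) [Field k] [CharZero k] (n : ℕ) (M : Type v) [AddCommGroup M] [Module k M]
      [FiniteDimensional k M] [Nontrivial M] [Module (MvPolynomial (SkewEntry n) k) M]
      [IsScalarTower k (MvPolynomial (SkewEntry n) k) M]
      (E : Fin n → Fin n → Module.End k M),
      EquivariantPair (skewX k n) E → NoLine k (SkewEntry n) M →
      Bound k (SkewEntry n) M (n.choose 2) n (n - 1)

section soc

variable {k : Type u} [Field k] {σ : Type} {M : Type v} [AddCommGroup M] [Module k M]
    [Module (MvPolynomial σ k) M] [IsScalarTower k (MvPolynomial σ k) M]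

/-- the subspace spanned by the multiples of the variables -/
theorem soc_le [FiniteDimensional k M] (hM : NoLine k σ M) (m : M)
    (hm : ∀ s : σ, (X s : MvPolynomial σ k) • m = 0) :
    m ∈ Submodule.span k {y : M | ∃ (s : σ) (z : M), y = (X s : MvPolynomial σ k) • z} := by
  by_contra hcon
  set P := Submodule.span k {y : M | ∃ (s : σ) (z : M), y = (X s : MvPolynomial σ k) • z} with hP
  obtain ⟨f, hf1, hf2⟩ := Submodule.exists_le_ker_of_notMem hcon
  -- every subspace containing `P` is a submodule, every subspace of the socle is a submodule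
  have hX : ∀ (s : σ) (y : M), f ((X s : MvPolynomial σ k) • y) = 0 := fun s y =>
    hf2 (Submodule.subset_span ⟨s, y, rfl⟩)
  have hact : ∀ (g : MvPolynomial σ k) (y : M), f y = 0 → f (g • y) = 0 := by
    intro g
    induction g using MvPolynomial.induction_on with
    | C a =>
      intro y hy
      rw [← MvPolynomial.algebraMap_eq, algebraMap_smul, map_smul, hy, smul_zero]
    | add p q hp hq =>
      intro y hy
      rw [add_smul, map_add, hp y hy, hq y hy, add_zero]
    | mul_X p s hp =>
      intro y _
      rw [mul_smul]
      exact hp _ (hX s y)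
  have hact' : ∀ (g : MvPolynomial σ k) (a : k), ∃ b : k, g • (a • m) = b • m := by
    intro g
    induction g using MvPolynomial.induction_on with
    | C a =>
      intro c
      refine ⟨a * c, ?_⟩
      rw [← MvPolynomial.algebraMap_eq, algebraMap_smul, smul_smul]
    | add p q hp hq =>
      intro c
      obtain ⟨b1, h1⟩ := hp c
      obtain ⟨b2, h2⟩ := hq c
      exact ⟨b1 + b2, by rw [add_smul, add_smul, h1, h2]⟩
    | mul_X p s hp =>
      intro c
      refine ⟨0, ?_⟩
      rw [mul_smul, smul_comm (X s : MvPolynomial σ k) c m, hm s, smul_zero, smul_zero, zero_smul]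
  let B : Submodule (MvPolynomial σ k) M :=
    { carrier := {y | f y = 0}
      add_mem' := fun {x y} hx hy => by
        show f (x + y) = 0
        rw [map_add, show f x = 0 from hx, show f y = 0 from hy, add_zero]
      zero_mem' := map_zero f
      smul_mem' := fun g y hy => hact g y hy }
  let A : Submodule (MvPolynomial σ k) M :=
    { carrier := {y | ∃ a : k, y = a • m}
      add_mem' := by
        rintro _ _ ⟨a, rfl⟩ ⟨b, rfl⟩
        exact ⟨a + b, by rw [add_smul]⟩
      zero_mem' := ⟨0, by rw [zero_smul]⟩
      smul_mem' := by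
        rintro g _ ⟨a, rfl⟩
        obtain ⟨b, hb⟩ := hact' g a
        exact ⟨b, hb⟩ }
  refine hM A B ?_ ?_
  · constructor
    · rw [disjoint_iff, eq_bot_iff]
      rintro _ ⟨⟨a, rfl⟩, h2⟩
      have h3 : f (a • m) = 0 := h2
      rw [map_smul, smul_eq_mul] at h3
      rw [Submodule.mem_bot, (mul_eq_zero.1 h3).resolve_right hf1, zero_smul]
    · rw [codisjoint_iff, eq_top_iff]
      intro y _
      rw [Submodule.mem_sup]
      refine ⟨((f y) / (f m)) • m, ⟨_, rfl⟩, y - ((f y) / (f m)) • m, ?_, by abel⟩
      show f (y - ((f y) / (f m)) • m) = 0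
      rw [map_sub, map_smul, smul_eq_mul, div_mul_cancel₀ _ hf1, sub_self]
  · have hm0 : m ≠ 0 := by
      rintro rfl
      exact hf1 (map_zero f)
    rw [finrank_eq_one_iff']
    refine ⟨⟨m, ⟨1, by rw [one_smul]⟩⟩, fun h => hm0 (congrArg Subtype.val h), ?_⟩
    rintro ⟨_, ⟨a, rfl⟩⟩
    exact ⟨a, rfl⟩

theorem soc_conv [FiniteDimensional k M] {n : ℕ} (e : Fin n ≃ σ) (hM : NoLine k σ M) (m : M)
    (hm : ∀ j : Fin n, opv k (cS k e) M j m = 0) :
    m ∈ ⨆ j : Fin n, LinearMap.range (opv k (cS k e) M j) := by
  have h1 := soc_le hM m (fun s => by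
    have := hm (e.symm s)
    rwa [opv_apply, cS_apply, Equiv.apply_symm_apply] at this)
  refine (Submodule.span_le.2 ?_) h1
  rintro _ ⟨s, z, rfl⟩
  refine Submodule.mem_iSup_of_mem (e.symm s) ⟨z, ?_⟩
  rw [opv_apply, cS_apply, Equiv.apply_symm_apply]

end soc

section matrices

variable {k : Type u} [Field k] {r c : ℕ}

/-- the enumeration of the variables as a grid -/
def gr {n : ℕ} (e : Fin n ≃ Fin r × Fin c) : Grid (fun _ : Fin r => ()) (fun _ : Fin c => ()) n where
  row i := (e i).1
  col i := (e i).2
  compat _ := rfl
  inj i j h h' := e.injective (Prod.ext h h')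
  surj a b _ := ⟨e.symm (a, b), by simp, by simp⟩

variable {M : Type v} [AddCommGroup M] [Module k M] [Module (MvPolynomial (Fin r × Fin c) k) M]
  {E : Fin r → Fin r → Module.End k M} {E' : Fin c → Fin c → Module.End k M}

/-- the representation -/
def rep (hE : Equivariant E E') : Rep k (PQ (fun _ : Fin r => ()) (fun _ : Fin c => ())) M where
  G
    | Sum.inl a, Sum.inl b => E a b
    | Sum.inr a, Sum.inr b => E' a b
    | _, _ => 0
  comm := by
    intro u v w z h h'
    cases u with
    | inl a =>
      cases v with
      | inr b => simp [PQ] at h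
      | inl b =>
        cases w with
        | inl d =>
          cases z with
          | inr e => simp [PQ] at h'
          | inl e =>
            have := hE.rows a b d e
            simpa using this
        | inr d =>
          cases z with
          | inl e => simp [PQ] at h'
          | inr e =>
            have := hE.comm a b d e
            simp [this]
    | inr a =>
      cases v with
      | inl b => simp [PQ] at h
      | inr b =>
        cases w with
        | inl d =>
          cases z with
          | inr e => simp [PQ] at h'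
          | inl e =>
            have := hE.comm d e a b
            simp [this]
        | inr d =>
          cases z with
          | inl e => simp [PQ] at h'
          | inr e =>
            have := hE.cols a b d e
            simpa using this
  wts := by
    rw [eq_top_iff, ← hE.weights]
    refine Submodule.span_le.2 ?_
    rintro m ⟨ν, ν', h1, h2⟩
    refine Submodule.mem_iSup_of_mem (Sum.elim ν ν') ?_
    intro u
    cases u with
    | inl a => exact h1 a
    | inr b => exact h2 b

variable [IsScalarTower k (MvPolynomial (Fin r × Fin c) k) M]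

theorem eqv {n : ℕ} (e : Fin n ≃ Fin r × Fin c) (hE : Equivariant E E') :
    ((gr e).V k).Eqv (rep hE) (opv k (cS k e) M) := by
  classical
  intro u v huv j m
  have ho : ∀ (i : Fin n) (y : M), opv k (cS k e) M i y =
      (X (e i) : MvPolynomial (Fin r × Fin c) k) • y := by
    intro i y
    rw [opv_apply, cS_apply]
  simp only [ho]
  cases u with
  | inl a =>
    cases v with
    | inr b => simp [PQ] at huv
    | inl b =>
      change E a b _ = _ • E a b m + ∑ i : Fin n, (gr e).rowM k a b i j • _
      have h0 := hE.row_var a b (e j).1 (e j).2 m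
      rw [Prod.mk.eta] at h0
      rw [h0]
      congr 1
      by_cases hj : b = (e j).1
      · rw [if_pos hj, Finset.sum_eq_single (e.symm (a, (e j).2))]
        · have h1 : (gr e).rowM k a b (e.symm (a, (e j).2)) j = 1 := by
            rw [Grid.rowM_apply, if_pos]
            refine ⟨?_, hj.symm, ?_⟩
            · show (e (e.symm (a, (e j).2))).1 = a
              rw [Equiv.apply_symm_apply]
            · show (e (e.symm (a, (e j).2))).2 = (e j).2
              rw [Equiv.apply_symm_apply]
          rw [h1, one_smul, Equiv.apply_symm_apply]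
        · intro i _ hi
          have h1 : (gr e).rowM k a b i j = 0 := by
            rw [Grid.rowM_apply, if_neg]
            rintro ⟨h2, -, h3⟩
            apply hi
            rw [Equiv.eq_symm_apply]
            exact Prod.ext h2 h3
          rw [h1, zero_smul]
        · simp
      · rw [if_neg hj, Finset.sum_eq_zero]
        intro i _
        have h1 : (gr e).rowM k a b i j = 0 := by
          rw [Grid.rowM_apply, if_neg]
          rintro ⟨-, h2, -⟩
          exact hj h2.symm
        rw [h1, zero_smul]
  | inr a =>
    cases v with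
    | inl b => simp [PQ] at huv
    | inr b =>
      change E' a b _ = _ • E' a b m + ∑ i : Fin n, (gr e).tr.rowM k a b i j • _
      have h0 := hE.col_var a b (e j).1 (e j).2 m
      rw [Prod.mk.eta] at h0
      rw [h0]
      congr 1
      by_cases hj : b = (e j).2
      · rw [if_pos hj, Finset.sum_eq_single (e.symm ((e j).1, a))]
        · have h1 : (gr e).tr.rowM k a b (e.symm ((e j).1, a)) j = 1 := by
            rw [Grid.rowM_apply, if_pos]
            refine ⟨?_, hj.symm, ?_⟩
            · show (e (e.symm ((e j).1, a))).2 = a
              rw [Equiv.apply_symm_apply]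
            · show (e (e.symm ((e j).1, a))).1 = (e j).1
              rw [Equiv.apply_symm_apply]
          rw [h1, one_smul, Equiv.apply_symm_apply]
        · intro i _ hi
          have h1 : (gr e).tr.rowM k a b i j = 0 := by
            rw [Grid.rowM_apply, if_neg]
            rintro ⟨h2, -, h3⟩
            apply hi
            rw [Equiv.eq_symm_apply]
            exact Prod.ext h3 h2
          rw [h1, zero_smul]
        · simp
      · rw [if_neg hj, Finset.sum_eq_zero]
        intro i _
        have h1 : (gr e).tr.rowM k a b i j = 0 := by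
          rw [Grid.rowM_apply, if_neg]
          rintro ⟨-, h2, -⟩
          exact hj h2.symm
        rw [h1, zero_smul]

end matrices

theorem matrixGap : MatrixGap.{u, v} := by
  intro k _ _ r c L hr hc M _ _ _ _ _ _ E E' hE hM F _ _ _ _ d ε hε hd0 hd i hi0 hin
  have hcard : Fintype.card (Fin r × Fin c) = r * c := by simp
  let e : Fin (r * c) ≃ Fin r × Fin c := (Fintype.equivFinOfCardEq hcard).symm
  exact (Pool.Agent.H83.GP.grid_gap (gr e) (rep hE) (eqv e hE) (soc_conv e hM) L hr hc i (by omega)
    hin).trans (Nat.mul_le_mul_left _ (finrank_H_le e F d ε hε hd0 hd i))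

section pairs

variable {k : Type u} [Field k] {n : ℕ} {σ : Type} {x : Fin n → Fin n → MvPolynomial σ k}
  {M : Type v} [AddCommGroup M] [Module k M] [Module (MvPolynomial σ k) M]
  {E : Fin n → Fin n → Module.End k M}

/-- the representation -/
def prep (hE : EquivariantPair x E) : Rep k (fun _ : Fin n => ()) M where
  G := E
  comm := fun a b a' b' _ _ => hE.units a b a' b'
  wts := by
    rw [eq_top_iff, ← hE.weights]
    refine Submodule.span_le.2 ?_
    rintro m ⟨ν, h1⟩
    exact Submodule.mem_iSup_of_mem ν h1

variable [IsScalarTower k (MvPolynomial σ k) M]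

theorem peqv {sk : Bool} {N : ℕ} (e : Fin N ≃ σ)
    (e' : Fin N ≃ {x : Fin n × Fin n // ok sk (fun _ : Fin n => ()) x})
    (hx : ∀ j : Fin N, x (e' j).1.1 (e' j).1.2 = X (e j))
    (hsk : ∀ a b : Fin n, x b a = (eps sk : k) • x a b) (hd : sk = true → ∀ a, x a a = 0)
    (hE : EquivariantPair x E) :
    (pV k e').Eqv (prep hE) (opv k (cS k e) M) := by
  intro u v huv j m
  have ho : ∀ (i : Fin N) (y : M), opv k (cS k e) M i y = (X (e i) : MvPolynomial σ k) • y := by
    intro i y
    rw [opv_apply, cS_apply]
  -- the entries
  have hxe : ∀ a b : Fin n, xe k e' (fun i => (X (e i) : MvPolynomial σ k) • m) a b = x a b • m := by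
    have key : ∀ j : Fin N, xe k e' (fun i => (X (e i) : MvPolynomial σ k) • m) (e' j).1.1
        (e' j).1.2 = x (e' j).1.1 (e' j).1.2 • m := by
      intro j
      rw [xe_eq, dif_pos (e' j).2]
      have h1 : ¬ (ok sk (fun _ : Fin n => ()) ((e' j).1.2, (e' j).1.1) ∧
          (e' j).1.1 ≠ (e' j).1.2) := by
        rintro ⟨h1, h2⟩
        exact h2 (le_antisymm (ok_le (e' j).2) (ok_le h1))
      rw [dif_neg h1, smul_zero, add_zero, hx j]
      have h2 : e'.symm ⟨((e' j).1.1, (e' j).1.2), (e' j).2⟩ = j := e'.symm_apply_apply j
      rw [h2]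
    intro a b
    rcases lt_trichotomy a b with h | h | h
    · have o1 : ok sk (fun _ : Fin n => ()) (a, b) := ⟨rfl, by cases sk <;> simp [h, h.le]⟩
      have := key (e'.symm ⟨(a, b), o1⟩)
      rwa [Equiv.apply_symm_apply] at this
    · subst h
      cases sk with
      | true =>
        have o1 : ¬ ok true (fun _ : Fin n => ()) (a, a) := fun h => by simpa using h.2
        rw [xe_eq, dif_neg o1, dif_neg (fun h => o1 h.1), hd rfl a]
        simp
      | false =>
        have o1 : ok false (fun _ : Fin n => ()) (a, a) := ⟨rfl, by simp⟩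
        have := key (e'.symm ⟨(a, a), o1⟩)
        rwa [Equiv.apply_symm_apply] at this
    · have o1 : ok sk (fun _ : Fin n => ()) (b, a) := ⟨rfl, by cases sk <;> simp [h, h.le]⟩
      have := key (e'.symm ⟨(b, a), o1⟩)
      rw [Equiv.apply_symm_apply] at this
      rw [xe_swap, this, hsk b a, smul_assoc]
  simp only [ho]
  change E u v _ = _ • E u v m + ∑ i : Fin N, pA k e' u v i j • _
  rw [sum_A e' (fun i => (X (e i) : MvPolynomial σ k) • m), hxe, hxe, ← hx j, hE.var u v, add_assoc]

end pairs

theorem card_sym (n : ℕ) : Fintype.card (SymEntry n) = (n + 1).choose 2 := by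
  rw [← Fintype.card_congr (Sym2.sortEquiv (α := Fin n)), Sym2.card, Fintype.card_fin]

theorem card_skew (n : ℕ) : Fintype.card (SkewEntry n) = n.choose 2 := by
  have h1 : Fintype.card (SkewEntry n) = Fintype.card (Σ b : Fin n, {a : Fin n // a < b}) :=
    Fintype.card_congr
      { toFun := fun x => ⟨x.1.2, ⟨x.1.1, x.2⟩⟩
        invFun := fun y => ⟨(y.2.1, y.1), y.2.2⟩
        left_inv := fun _ => rfl
        right_inv := fun _ => rfl }
  rw [h1, Fintype.card_sigma]
  have h2 : ∀ b : Fin n, Fintype.card {a : Fin n // a < b} = b := by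
    intro b
    rw [Fintype.card_subtype]
    have : (Finset.univ.filter fun a : Fin n => a < b) = Finset.Iio b := by
      ext a; simp
    rw [this, Fin.card_Iio]
  simp only [h2]
  rw [Fin.sum_univ_eq_sum_range (fun i => i) n, Finset.sum_range_id, Nat.choose_two_right]

theorem symmetricGap : SymmetricGap.{u, v} := by
  intro k _ _ n M _ _ _ _ _ _ E hE hM F _ _ _ _ d ε hε hd0 hd i hi0 hin
  have hn : 2 ≤ n := by
    by_contra hn
    have : n = 0 ∨ n = 1 := by omega
    rcases this with rfl | rfl
    · simp at hin
    · simp at hin
      omega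
  let e : Fin ((n + 1).choose 2) ≃ SymEntry n := (Fintype.equivFinOfCardEq (card_sym n)).symm
  let e' : Fin ((n + 1).choose 2) ≃ {x : Fin n × Fin n // ok false (fun _ : Fin n => ()) x} :=
    e.trans (Equiv.subtypeEquivRight fun x => by simp [ok])
  have he : ∀ j, (e' j).1 = (e j).1 := fun j => rfl
  refine (Pool.Agent.H83.GP.pair_gap e' (prep hE) (peqv e e' ?_ ?_ (by simp) hE) (soc_conv e hM) n hn
    (Or.inl le_rfl) i (by omega) hin).trans
    (Nat.mul_le_mul_left _ (finrank_H_le e F d ε hε hd0 hd i))
  · intro j
    rw [he, symX, dif_pos (e j).2]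
  · intro a b
    simp only [eps, Bool.false_eq_true, if_false, Int.cast_one, one_smul]
    unfold symX
    rcases lt_trichotomy a b with h | h | h
    · rw [dif_pos h.le, dif_neg (not_le.2 h)]
    · rw [h]
    · rw [dif_pos h.le, dif_neg (not_le.2 h)]

theorem skewGap : SkewGap.{u, v} := by
  intro k _ _ n M _ _ _ _ _ _ E hE hM F _ _ _ _ d ε hε hd0 hd i hi0 hin
  have hn : 2 ≤ n := by
    by_contra hn
    have : n = 0 ∨ n = 1 := by omega
    rcases this with rfl | rfl
    · simp at hin
    · simp at hin
  let e : Fin (n.choose 2) ≃ SkewEntry n := (Fintype.equivFinOfCardEq (card_skew n)).symm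
  let e' : Fin (n.choose 2) ≃ {x : Fin n × Fin n // ok true (fun _ : Fin n => ()) x} :=
    e.trans (Equiv.subtypeEquivRight fun x => by simp [ok])
  have he : ∀ j, (e' j).1 = (e j).1 := fun j => rfl
  have h1 := (Pool.Agent.H83.GP.pair_gap e' (prep hE) (peqv e e' (fun j => ?_) ?_ (fun _ a => ?_) hE)
    (soc_conv e hM) (n - 2) hn
    (Or.inr ⟨rfl, by omega⟩) i (by omega) hin).trans
    (Nat.mul_le_mul_left _ (finrank_H_le e F d ε hε hd0 hd i))
  · rwa [show n - 2 + 2 = n by omega, show n - 2 + 1 = n - 1 by omega] at h1
  · rw [he, skewX, dif_pos (e j).2]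
  · intro a b
    simp only [eps, if_true, Int.cast_neg, Int.cast_one, neg_smul, one_smul]
    unfold skewX
    rcases lt_trichotomy a b with h | h | h
    · rw [dif_pos h, dif_neg (lt_asymm h), dif_pos h]
    · rw [h]
      simp
    · rw [dif_pos h, dif_neg (lt_asymm h), dif_pos h, neg_neg]
  · simp [skewX]

/-- **The gap theorem** for matrices, symmetric matrices and skew-symmetric matrices. -/
theorem result : MatrixGap.{u, v} ∧ SymmetricGap.{u, v} ∧ SkewGap.{u, v} :=
  ⟨matrixGap, symmetricGap, skewGap⟩

end Pool.Agent.Results.MP_e2ce73_al.GapTheorem
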