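import Pool.Agent.H83.GQ.So

set_option autoImplicit false

/-!
# Betti numbers of graded modules with an action of the orthogonal group: a gap of `4 / 3`

Let `k` be a field of characteristic `0`, `m ≥ 3`, and let `S = k[x_0, …, x_{m-1}]` with the action
of the group of similitudes of the split quadratic form `∑_i x_i x_{m-1-i}`, that is, of the
orthogonal group `O_m` and the scalars. Let `M` be a nonzero equivariant `S`-module of finite
length (a graded module with an action of `SO_m`, or of `Spin_m`, compatible with the rotations of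
the variables). If `M` has no direct summand of dimension one (that is, the residue field `k` is
not a direct summand of `M`), then every resolution of `M` by finite free modules `F_i` has
`rank F_i ≥ (4 / 3) * binom(m, i)` for all `0 < i < m`.

The action enters through the Lie algebra: a representation `ρ` on `M` of the Lie algebra of the
matrices preserving the form up to a scalar (`Similitude`), such that
`A (x_a y) = x_a (A y) + (A x_a) y`, and such that `M` is the sum of its weight spaces for
half-integral weights.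
-/

namespace Pool.Agent.Results.MP_e2ce73_al.OrthogonalGap

open MvPolynomial Pool.Agent.K7.H9.HL Pool.Agent.W650
open Pool.Agent.K7.H9.HE (cS cS_apply finrank_H_le)

universe u v

/-- `A` preserves the quadratic form `∑_i x_i x_{m-1-i}` up to a scalar:
`A_{i,j} + A_{m-1-j,m-1-i} = c δ_{ij}`. -/
def Similitude {k : Type u} [Field k] {m : ℕ} (A : Matrix (Fin m) (Fin m) k) : Prop :=
  ∃ c : k, ∀ i j : Fin m, A i j + A j.rev i.rev = if i = j then c else 0

/-- `y` is a weight vector of half-integral weight: `2A` acts on it as an integer for every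
diagonal matrix `A` of the Lie algebra with integer entries. -/
def HalfIntegral {k : Type u} [Field k] {m : ℕ} {M : Type v} [AddCommGroup M]
    [Module k M] (ρ : Matrix (Fin m) (Fin m) k → Module.End k M) (y : M) : Prop :=
  ∀ A : Matrix (Fin m) (Fin m) k, Similitude A → (∀ a b, a ≠ b → A a b = 0) →
    (∀ a, ∃ z : ℤ, A a a = z) → ∃ c : ℤ, (2 : k) • ρ A y = (c : k) • y

/-- An equivariant module: a representation `ρ` on `M` of the Lie algebra of the matrices `A` with
`Similitude A`, compatible with its action `A x_a = ∑ b, A b a x_b` on the variables, with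
half-integral weights. (The values of `ρ` at other matrices do not matter.) -/
structure Equivariant {k : Type u} [Field k] {m : ℕ}
    {M : Type v} [AddCommGroup M] [Module k M] [Module (MvPolynomial (Fin m) k) M]
    (ρ : Matrix (Fin m) (Fin m) k → Module.End k M) : Prop where
  /-- `ρ` is additive -/
  add : ∀ A B, Similitude A → Similitude B → ρ (A + B) = ρ A + ρ B
  /-- `ρ` is linear -/
  smul : ∀ (c : k) (A), Similitude A → ρ (c • A) = c • ρ A
  /-- `ρ [A, B] = [ρ A, ρ B]` -/
  bracket : ∀ A B, Similitude A → Similitude B → ρ (A * B - B * A) = ρ A * ρ B - ρ B * ρ A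
  /-- `A (x_a y) = x_a (A y) + (A x_a) y` -/
  var : ∀ A, Similitude A → ∀ (a : Fin m) (y : M),
    ρ A ((X a : MvPolynomial (Fin m) k) • y) = (X a : MvPolynomial (Fin m) k) • ρ A y +
      ∑ b, A b a • ((X b : MvPolynomial (Fin m) k) • y)
  /-- `M` is the sum of its weight spaces -/
  weights : Submodule.span k {y | HalfIntegral ρ y} = ⊤

/-- `M` has no direct summand of dimension one over `k`. -/
def NoLine (k : Type u) [Field k] (σ : Type) (M : Type v) [AddCommGroup M] [Module k M]
    [Module (MvPolynomial σ k) M] [IsScalarTower k (MvPolynomial σ k) M] : Prop :=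
  ∀ A B : Submodule (MvPolynomial σ k) M, IsCompl A B → Module.finrank k A ≠ 1

section soc

variable {k : Type u} [Field k] {σ : Type} {M : Type v} [AddCommGroup M] [Module k M]
    [Module (MvPolynomial σ k) M] [IsScalarTower k (MvPolynomial σ k) M]

/-- the subspace spanned by the multiples of the variables -/
theorem soc_le [FiniteDimensional k M] (hM : NoLine k σ M) (m : M)
    (hm : ∀ s : σ, (X s : MvPolynomial σ k) • m = 0) :
    m ∈ Submodule.span k {y : M | ∃ (s : σ) (z : M), y = (X s : MvPolynomial σ k) • z} := by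
  by_contra hcon
  set P := Submodule.span k {y : M | ∃ (s : σ) (z : M), y = (X s : MvPolynomial σ k) • z} with hP
  obtain ⟨f, hf1, hf2⟩ := Submodule.exists_le_ker_of_notMem hcon
  -- every subspace containing `P` is a submodule, every subspace of the socle is a submodule
  have hX : ∀ (s : σ) (y : M), f ((X s : MvPolynomial σ k) • y) = 0 := fun s y =>
    hf2 (Submodule.subset_span ⟨s, y, rfl⟩)
  have hact : ∀ (g : MvPolynomial σ k) (y : M), f y = 0 → f (g • y) = 0 := by
    intro g
    induction g using MvPolynomial.induction_on with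
    | C a =>
      intro y hy
      rw [← MvPolynomial.algebraMap_eq, algebraMap_smul, map_smul, hy, smul_zero]
    | add p q hp hq =>
      intro y hy
      rw [add_smul, map_add, hp y hy, hq y hy, add_zero]
    | mul_X p s hp =>
      intro y _
      rw [mul_smul]
      exact hp _ (hX s y)
  have hact' : ∀ (g : MvPolynomial σ k) (a : k), ∃ b : k, g • (a • m) = b • m := by
    intro g
    induction g using MvPolynomial.induction_on with
    | C a =>
      intro c
      refine ⟨a * c, ?_⟩
      rw [← MvPolynomial.algebraMap_eq, algebraMap_smul, smul_smul]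
    | add p q hp hq =>
      intro c
      obtain ⟨b1, h1⟩ := hp c
      obtain ⟨b2, h2⟩ := hq c
      exact ⟨b1 + b2, by rw [add_smul, add_smul, h1, h2]⟩
    | mul_X p s hp =>
      intro c
      refine ⟨0, ?_⟩
      rw [mul_smul, smul_comm (X s : MvPolynomial σ k) c m, hm s, smul_zero, smul_zero, zero_smul]
  let B : Submodule (MvPolynomial σ k) M :=
    { carrier := {y | f y = 0}
      add_mem' := fun {x y} hx hy => by
        show f (x + y) = 0
        rw [map_add, show f x = 0 from hx, show f y = 0 from hy, add_zero]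
      zero_mem' := map_zero f
      smul_mem' := fun g y hy => hact g y hy }
  let A : Submodule (MvPolynomial σ k) M :=
    { carrier := {y | ∃ a : k, y = a • m}
      add_mem' := by
        rintro _ _ ⟨a, rfl⟩ ⟨b, rfl⟩
        exact ⟨a + b, by rw [add_smul]⟩
      zero_mem' := ⟨0, by rw [zero_smul]⟩
      smul_mem' := by
        rintro g _ ⟨a, rfl⟩
        obtain ⟨b, hb⟩ := hact' g a
        exact ⟨b, hb⟩ }
  refine hM A B ?_ ?_
  · constructor
    · rw [disjoint_iff, eq_bot_iff]
      rintro _ ⟨⟨a, rfl⟩, h2⟩
      have h3 : f (a • m) = 0 := h2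
      rw [map_smul, smul_eq_mul] at h3
      rw [Submodule.mem_bot, (mul_eq_zero.1 h3).resolve_right hf1, zero_smul]
    · rw [codisjoint_iff, eq_top_iff]
      intro y _
      rw [Submodule.mem_sup]
      refine ⟨((f y) / (f m)) • m, ⟨_, rfl⟩, y - ((f y) / (f m)) • m, ?_, by abel⟩
      show f (y - ((f y) / (f m)) • m) = 0
      rw [map_sub, map_smul, smul_eq_mul, div_mul_cancel₀ _ hf1, sub_self]
  · have hm0 : m ≠ 0 := by
      rintro rfl
      exact hf1 (map_zero f)
    rw [finrank_eq_one_iff']
    refine ⟨⟨m, ⟨1, by rw [one_smul]⟩⟩, fun h => hm0 (congrArg Subtype.val h), ?_⟩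
    rintro ⟨_, ⟨a, rfl⟩⟩
    exact ⟨a, rfl⟩

theorem soc_conv [FiniteDimensional k M] {n : ℕ} (e : Fin n ≃ σ) (hM : NoLine k σ M) (m : M)
    (hm : ∀ j : Fin n, opv k (cS k e) M j m = 0) :
    m ∈ ⨆ j : Fin n, LinearMap.range (opv k (cS k e) M j) := by
  have h1 := soc_le hM m (fun s => by
    have := hm (e.symm s)
    rwa [opv_apply, cS_apply, Equiv.apply_symm_apply] at this)
  refine (Submodule.span_le.2 ?_) h1
  rintro _ ⟨s, z, rfl⟩
  refine Submodule.mem_iSup_of_mem (e.symm s) ⟨z, ?_⟩
  rw [opv_apply, cS_apply, Equiv.apply_symm_apply]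

end soc

section proof

variable {k : Type u} [Field k] (m : ℕ)

theorem card_lt (n : ℕ) (i : Fin n) : (Finset.univ.filter fun j : Fin n => j < i).card = i := by
  have h : (Finset.univ.filter fun j : Fin n => j < i) = Finset.Iio i := by
    ext j
    simp
  rw [h, Fin.card_Iio]

/-- the only block -/
def bl : Bl (Fin m) Unit where
  p _ := ()
  rv := Fin.rev
  o a := 2 * ((a : ℕ) : ℤ) - ((m : ℤ) - 1)
  p_rv _ := rfl
  o_rv := by
    intro i
    simp only [Fin.val_rev]
    have := i.2
    omega
  inj := by
    intro i j _ h'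
    apply Fin.ext
    omega
  pos := by
    intro i
    have h1 : (Finset.univ.filter fun b : Fin m => () = ()) = Finset.univ := by
      simp
    have h2 : (Finset.univ.filter fun b : Fin m => () = () ∧
        2 * ((b : ℕ) : ℤ) - ((m : ℤ) - 1) < 2 * ((i : ℕ) : ℤ) - ((m : ℤ) - 1)) =
        Finset.univ.filter fun j => j < i := by
      ext j
      simp only [Finset.mem_filter, Finset.mem_univ, true_and, Fin.lt_def]
      omega
    rw [h1, h2, card_lt, Finset.card_univ, Fintype.card_fin]
  step := by
    intro i h
    have := i.2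
    refine ⟨⟨i - 1, by omega⟩, rfl, ?_⟩
    simp only
    omega

theorem sim_iff (X : Matrix (Fin m) (Fin m) k) : Similitude X ↔ X ∈ (bl m).GO k := by
  rw [Bl.mem_GO]
  constructor
  · rintro ⟨c, hc⟩
    refine ⟨fun a b h => absurd rfl h, fun _ => c, ?_⟩
    ext i j
    rw [Matrix.add_apply, Bl.ta_apply, Matrix.diagonal_apply]
    exact hc i j
  · rintro ⟨-, c, hc⟩
    refine ⟨c (), fun i j => ?_⟩
    have := congrFun (congrFun hc i) j
    rw [Matrix.add_apply, Bl.ta_apply, Matrix.diagonal_apply] at this
    exact this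

variable {m} [CharZero k] {M : Type v} [AddCommGroup M] [Module k M]
  [Module (MvPolynomial (Fin m) k) M] {ρ : Matrix (Fin m) (Fin m) k → Module.End k M}

/-- the representation -/
def rep (hE : Equivariant ρ) : Rep ((bl m).tri k) M where
  ρ :=
    { toFun := fun X => ρ X.1
      map_add' := fun X Y => hE.add _ _ ((sim_iff m _).2 X.2) ((sim_iff m _).2 Y.2)
      map_smul' := fun a X => hE.smul a _ ((sim_iff m _).2 X.2) }
  br := fun X Y => hE.bracket _ _ ((sim_iff m _).2 X.2) ((sim_iff m _).2 Y.2)
  wts := by
    rw [eq_top_iff, ← hE.weights]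
    refine Submodule.span_le.2 ?_
    intro y hy
    have h1 : ∀ i : Fin m, ∃ c : ℤ, (2 : k) • ρ ((bl m).Fm k i i) y = (c : k) • y := by
      intro i
      refine hy _ ((sim_iff m _).2 ((bl m).Fm_mem i i)) (fun a b hab => ?_) (fun a => ?_)
      · rw [Bl.Fm_apply, if_pos rfl, if_neg (fun h => hab (h.1.symm.trans h.2)),
          if_neg (fun h => hab (h.1.symm.trans h.2)), sub_zero]
      · rw [Bl.Fm_apply, if_pos rfl]
        refine ⟨(if i = a ∧ i = a then 1 else 0) -
          (if (bl m).rv i = a ∧ (bl m).rv i = a then 1 else 0), ?_⟩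
        push_cast
        rfl
    have h2 : ∀ t : Unit, ∃ c : ℤ, (2 : k) • ρ ((bl m).Dm k t) y = (c : k) • y := by
      intro t
      refine hy _ ((sim_iff m _).2 ((bl m).Dm_mem t)) (fun a b hab => ?_) (fun a => ?_)
      · rw [Bl.Dm, Matrix.diagonal_apply_ne _ hab]
      · rw [Bl.Dm, Matrix.diagonal_apply_eq]
        exact ⟨if (bl m).p a = t then 1 else 0, by push_cast; rfl⟩
    choose c hc using h1
    choose d hd using h2
    refine Submodule.mem_iSup_of_mem (Sum.elim c d) ?_
    rintro (i | t)
    · change ρ ((2 : k) • (bl m).Fm k i i) y = _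
      rw [hE.smul _ _ ((sim_iff m _).2 ((bl m).Fm_mem i i)), LinearMap.smul_apply, hc]
      rfl
    · change ρ ((2 : k) • (bl m).Dm k t) y = _
      rw [hE.smul _ _ ((sim_iff m _).2 ((bl m).Dm_mem t)), LinearMap.smul_apply, hd]
      rfl

variable [IsScalarTower k (MvPolynomial (Fin m) k) M]

theorem eqv {N : ℕ} (e : Fin N ≃ Fin m) (hE : Equivariant ρ) :
    ((bl m).V k e).Eqv (rep hE) (opv k (cS k e) M) := by
  intro X j y
  have ho : ∀ (i : Fin N) (y : M), opv k (cS k e) M i y =
      (MvPolynomial.X (e i) : MvPolynomial (Fin m) k) • y := by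
    intro i y
    rw [opv_apply, cS_apply]
  simp only [ho]
  have h1 := hE.var X.1 ((sim_iff m _).2 X.2) (e j) y
  change ρ X.1 _ = _ • ρ X.1 y +
    ∑ i : Fin N, X.1 (e i) (e j) • ((MvPolynomial.X (e i) : MvPolynomial (Fin m) k) • y)
  rw [h1]
  congr 1
  exact (e.sum_comp fun b => X.1 b (e j) • ((MvPolynomial.X b : MvPolynomial (Fin m) k) • y)).symm

end proof

/-- **Theorem.** Let `m ≥ 3` and let `M` be a nonzero module, finite-dimensional over `k`, over the
polynomial ring in `m` variables, equivariant under the orthogonal group `O_m` and the scalars, and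
without a direct summand of dimension one. Then every resolution of `M` by finite free modules
`F_i` has `rank F_i ≥ (4 / 3) * binom(m, i)` for `0 < i < m`. -/
theorem result (k : Type u) [Field k] [CharZero k] (m : ℕ) (h3 : 3 ≤ m)
    (M : Type v) [AddCommGroup M] [Module k M] [FiniteDimensional k M] [Nontrivial M]
    [Module (MvPolynomial (Fin m) k) M] [IsScalarTower k (MvPolynomial (Fin m) k) M]
    (ρ : Matrix (Fin m) (Fin m) k → Module.End k M) (hρ : Equivariant ρ)
    (hM : NoLine k (Fin m) M)
    (F : ℕ → Type v) [∀ i, AddCommGroup (F i)] [∀ i, Module (MvPolynomial (Fin m) k) (F i)]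
    [∀ i, Module.Free (MvPolynomial (Fin m) k) (F i)]
    [∀ i, Module.Finite (MvPolynomial (Fin m) k) (F i)]
    (d : ∀ i, F (i + 1) →ₗ[MvPolynomial (Fin m) k] F i)
    (ε : F 0 →ₗ[MvPolynomial (Fin m) k] M) (hε : Function.Surjective ε)
    (hd0 : LinearMap.range (d 0) = LinearMap.ker ε)
    (hd : ∀ i, LinearMap.range (d (i + 1)) = LinearMap.ker (d i)) (i : ℕ) (hi0 : 0 < i)
    (hin : i < m) :
    4 * m.choose i ≤ 3 * Module.finrank (MvPolynomial (Fin m) k) (F i) :=
  (Pool.Agent.H83.GQ.so_gap (bl m) (Equiv.refl (Fin m)) (fun _ _ => rfl)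
    (by rw [Fintype.card_fin]; exact h3) (rep hρ) (eqv _ hρ) (soc_conv _ hM) i (by omega) hin).trans
    (Nat.mul_le_mul_left _ (finrank_H_le _ F d ε hε hd0 hd i))

end Pool.Agent.Results.MP_e2ce73_al.OrthogonalGap
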